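import Pool.Agent.H41.CUBE.TStmts

set_option autoImplicit false

open Finset MvPolynomial Pool.CM

namespace Pool.CUBE

namespace TAMEH

section
variable {X : Idx} {E : Type} [Field E] {A : PF X E} {i : X.I}

theorem dv_iff {M : ℕ} {x : E} : A.Dv i M x ↔ x ∈ Pool.H93.Cube.pI (A.O i) (X.p i) M := Iff.rfl

theorem dv_le {M N : ℕ} {x : E} (h : A.Dv i M x) (hN : N ≤ M) : A.Dv i N x :=
  Pool.H93.Cube.pI_le hN h

theorem dv_neg {M : ℕ} {x : E} (h : A.Dv i M x) : A.Dv i M (-x) :=
  (Pool.H93.Cube.pI (A.O i) (X.p i) M).neg_mem h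

theorem coeff_cD {n : ℕ} (δ : Derivation ℤ E E) (g : Poly n E) (a : Fin (n + 1) →₀ ℕ) :
    coeff a (cD δ g) = δ (coeff a g) := by
  classical
  induction g using MvPolynomial.induction_on' with
  | monomial b r =>
    rw [cD_monomial, coeff_monomial, coeff_monomial]
    split_ifs
    · rfl
    · rw [map_zero]
  | add g1 g2 h1 h2 => rw [map_add, coeff_add, h1, h2, coeff_add, map_add]

theorem cint_mul {n : ℕ} {g h : Poly n E} (hg : CInt A i g) (hh : CInt A i h) :
    CInt A i (g * h) := by
  classical
  intro a
  rw [coeff_mul]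
  exact (A.O i).sum_mem fun x _ => (A.O i).mul_mem (hg _) (hh _)

theorem cint_sub {n : ℕ} {g h : Poly n E} (hg : CInt A i g) (hh : CInt A i h) :
    CInt A i (g - h) := by
  intro a
  rw [coeff_sub]
  exact (A.O i).sub_mem (hg _) (hh _)

theorem cint_cD {n : ℕ} (hA : A.Ax) {g : Poly n E} (hg : CInt A i g) (j : A.J) :
    CInt A i (cD (A.D j) g) := by
  intro a
  rw [coeff_cD]
  exact hA.D_O i j _ (hg a)

end

end TAMEH

open TAMEH

/-- assembly of the block TAME -/
theorem TAME_proof (hBAS2 : BAS2Stmt) (hCI : CIStmt) (hPSI : PSIStmt) (hCPX : CPXStmt)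
    (hMAL : MALStmt) (hGFL : GFLStmt) (hEW : EWStmt) (hEPW : EPWStmt) (hCHI : CHIStmt) :
    TAMEStmt := by
  intro X E _ _ A hA n D hD P hP hRed hne
  obtain ⟨hW, -, -⟩ := hEPW E n D hD P hP
  have hew := hEW X E A hA n D hD P hP hRed hne
  obtain ⟨N, co, hco, hN⟩ := hBAS2 E n D hD P hP hRed (eP D n P) hW hew
  set b : Option N → Poly n E :=
    fun a => a.elim (eP D n P) fun a => (monomial a.1 1 : Poly n E) with hb
  set l : Option N → ℕ := fun a => a.elim (n + 1) fun a => (a.1.degree + (n + 1)) / D with hl
  have hWD : WtD D (eP D n P) := fun a ha => by rw [hW a ha]; exact Dvd.intro _ rfl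
  have hcoe : co (eP D n P) = Pi.single none 1 := hco.cb none
  have hlev : ∀ a : N, l (some a) ≤ n := by
    intro a
    have h1 := (hN a.1 a.2).2
    change (a.1.degree + (n + 1)) / D ≤ n
    exact Nat.div_le_of_le_mul h1
  obtain ⟨hg1, hg2, hg3⟩ := hGFL X E A hA n D hD P hP (Option N) b l co hco
  have hfrob : ∀ M M', M + 2 * n + 1 ≤ M' → ∃ C, X.Ev fun i =>
      ∃ Phi : Matrix (Option N) (Option N) E,
      Pool.H93.Cube.Frob A (fun j => matG (A.D j) P b co) (fun a => if a = none then 1 else 0)
        none n i M C Phi (matB (X.p i) D M' (A.phi i) P b co).transpose := by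
    intro M M' hM
    obtain ⟨C, hC⟩ := hCPX X E A hA n D hD P hP hRed (Option N) b l co hco M' (by omega)
    have hpsi := hPSI X E A hA n D hD P hP hRed (Option N) b l co hco M' (by omega)
    have hci := hCI X E A hA n D hD P hP hRed (Option N) b l co hco
    refine ⟨C, ((hC.and hpsi).and hci).mono ?_⟩
    rintro i ⟨⟨⟨hc1, hc2⟩, hps⟩, hPi, hbi, hcoi, -, -⟩
    obtain ⟨hB, hAm, -, hBA, hhor, hgap, hvec⟩ := hps _ _ rfl rfl
    set B := matB (X.p i) D M' (A.phi i) P b co with hBdef
    set Am := matA (X.p i) M' (A.phi i) P b l co with hAdef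
    have hGi : ∀ (j : A.J) a c, matG (A.D j) P b co a c ∈ A.O i := by
      intro j a c
      have h1 : CInt A i (nab0 (A.D j) P (b c)) := by
        rw [nab0_apply]
        exact cint_sub (cint_cD hA (hbi c) j) (cint_mul (cint_cD hA hPi j) (hbi c))
      exact (hcoi _ h1).1 a
    have hxO : ∀ a, co (eP D n P) a ∈ A.O i := by
      intro a
      rw [hcoe]
      by_cases h : a = none
      · subst h; simp
      · rw [Pi.single_eq_of_ne h]; exact (A.O i).zero_mem
    obtain ⟨hm1, hm2, hm3⟩ := hMAL X E A hA i n (M + 1) (by omega) (Option N) B Am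
      (fun j => matG (A.D j) P b co) (co (eP D n P)) hB hAm hGi hxO
      (fun a j => dv_le (hBA a j) (by omega)) (fun j a c => dv_le (hhor j a c) (by omega))
      (fun a => dv_le (hvec a) (by omega))
    have hcol : ∀ a, A.Dv i (M + 1) (Am a none - (if a = none then 1 else 0)) := by
      intro a
      have h1 := hm3 a
      have h2 : ∑ j, Am a j * A.phi i (co (eP D n P) j) = Am a none := by
        rw [Finset.sum_eq_single none]
        · rw [hcoe]; simp
        · intro j _ hj
          rw [hcoe, Pi.single_eq_of_ne hj, map_zero, mul_zero]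
        · intro h; exact absurd (Finset.mem_univ _) h
      have h3 : co (eP D n P) a = if a = none then 1 else 0 := by
        rw [hcoe, Pi.single_apply]
      rw [h2, h3] at h1
      exact h1
    refine ⟨Am, ?_⟩
    constructor
    · exact hc2
    · intro a c
      exact hc1 c a
    · intro a c
      rw [Matrix.transpose_transpose, Matrix.smul_apply, Matrix.one_apply, smul_eq_mul]
      exact dv_le (hBA a c) (by omega)
    · intro a c
      rw [Matrix.transpose_transpose, Matrix.smul_apply, Matrix.one_apply, smul_eq_mul]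
      exact dv_le (hm1 a c) (by omega)
    · intro j a c
      have h1 := dv_iff.mp (dv_le (hm2 j a c) (N := M) (by omega))
      simpa only [Matrix.add_apply, Matrix.map_apply, Matrix.smul_apply, smul_eq_mul] using h1
    · intro j a c
      have h1 := dv_neg (dv_le (hhor j c a) (N := M) (by omega))
      have h2 : (B.transpose.map (A.D j) - (matG (A.D j) P b co).transpose * B.transpose) a c -
          (-((X.p i : E) • (B.transpose * ((matG (A.D j) P b co).map (A.phi i)).transpose))) a c =
          -((B * matG (A.D j) P b co) c a - A.D j (B c a) -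
            (X.p i : E) * ((matG (A.D j) P b co).map (A.phi i) * B) c a) := by
        rw [← Matrix.transpose_mul, ← Matrix.transpose_mul]
        simp only [Matrix.sub_apply, Matrix.map_apply, Matrix.transpose_apply, Matrix.neg_apply,
          Matrix.smul_apply, smul_eq_mul]
        ring
      rw [h2]
      exact h1
    · intro a
      exact dv_le (hcol a) (by omega)
    · intro a c
      cases c with
      | none =>
        have h1 := dv_le (hcol a) (N := 1) (by omega)
        have h2 : (if a = none then A.phi i (if (none : Option N) = none then 1 else 0) else 0) =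
            (if a = none then (1 : E) else 0) := by simp
        rw [h2]
        exact h1
      | some c =>
        have h1 := hgap (some c) (hlev c) a
        have h2 : (if a = none then A.phi i (if (some c : Option N) = none then 1 else 0) else 0) =
            (0 : E) := by simp
        rw [h2, sub_zero]
        exact h1
  have hchi := hCHI E n D hD P N co b l hco rfl (fun x => rfl) (fun x => (hN x.1 x.2).2) hew
  refine ⟨N, co, b, l, rfl, fun a => rfl, hN, hco, hchi, ?_, hfrob⟩
  constructor
  · intro j k
    exact hg2 j k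
  · intro j x
    have h1 := hg1 j (eP D n P) hWD x
    have h2 := hg3 j x
    rw [h2] at h1
    exact h1
  · simp
  · intro M
    obtain ⟨C, hC⟩ := hfrob M (M + 2 * n + 1) le_rfl
    exact ⟨C, hC.mono fun i hi => by
      obtain ⟨Phi, h⟩ := hi
      exact ⟨Phi, _, h⟩⟩

end Pool.CUBE
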