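import Pool.Agent.H41.CUBE.JStmts

set_option autoImplicit false

open Finset MvPolynomial Pool.CM

namespace Pool.CUBE

namespace JT0H

section
variable {n : ℕ}

theorem algQ {B B' : Type} [CommRing B] [CommRing B'] [Algebra ℚ B] [Algebra ℚ B']
    (f : B →+* B') (q : ℚ) : f (algebraMap ℚ B q) = algebraMap ℚ B' q := by
  have h : f.comp (algebraMap ℚ B) = algebraMap ℚ B' := RingHom.ext_rat _ _
  rw [← h, RingHom.comp_apply]

theorem IoQ_map {B B' : Type} [CommRing B] [CommRing B'] [Algebra ℚ B] [Algebra ℚ B']
    (f : B →+* B') (h : Poly n B) : f (IoQ h) = IoQ (map f h) := by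
  induction h using MvPolynomial.induction_on' with
  | monomial a r =>
    rw [map_monomial, IoQ, IoQ, linMon_monomial, linMon_monomial, smul_eq_mul, smul_eq_mul,
      map_mul, algQ]
  | add g1 g2 h1 h2 => rw [map_add, map_add, h1, h2, map_add, map_add]

theorem aN_map {B B' : Type} [CommRing B] [CommRing B'] [Algebra ℚ B] [Algebra ℚ B']
    (f : B →+* B') (D : ℕ) (X1 : Poly n B) (N : ℕ) (a : Fin (n + 1) →₀ ℕ) :
    f (aN D X1 N (monomial a 1)) = aN D (map f X1) N (monomial a 1) := by
  rw [aN, aN, linMon_monomial, linMon_monomial, one_smul, one_smul]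
  split_ifs
  · rw [map_mul, algQ, IoQ_map, map_mul, map_pow, map_monomial, map_one]
  · rw [map_zero]

end

section
variable {E : Type} [Field E]

theorem exP_C (x : E) : exP E (Polynomial.C x) = HahnSeries.C x := by
  ext k
  rcases lt_or_ge k 0 with hk | hk
  · rw [exP_coeff_neg _ _ hk, HahnSeries.C_apply, HahnSeries.coeff_single_of_ne (by omega)]
  · obtain ⟨m, rfl⟩ := Int.eq_ofNat_of_zero_le hk
    rw [exP_coeff_nat, Polynomial.coeff_C, HahnSeries.C_apply]
    by_cases h : m = 0
    · subst h; simp
    · rw [if_neg h, HahnSeries.coeff_single_of_ne (by omega)]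

theorem exP_X : exP E Polynomial.X = HahnSeries.single 1 1 := by
  ext k
  rcases lt_or_ge k 0 with hk | hk
  · rw [exP_coeff_neg _ _ hk, HahnSeries.coeff_single_of_ne (by omega)]
  · obtain ⟨m, rfl⟩ := Int.eq_ofNat_of_zero_le hk
    rw [exP_coeff_nat, Polynomial.coeff_X]
    by_cases h : m = 1
    · subst h; simp
    · rw [if_neg (fun h' => h h'.symm), HahnSeries.coeff_single_of_ne (by omega)]

theorem ex_C' (x : E) : ex E (algebraMap E (RatFunc E) x) = HahnSeries.C x := by
  rw [RatFunc.algebraMap_eq_C, ← RatFunc.algebraMap_C, ex_algebraMap, exP_C]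

theorem ex_X' : ex E RatFunc.X = HahnSeries.single 1 1 := by
  rw [← RatFunc.algebraMap_X, ex_algebraMap, exP_X]

theorem exTl_C (x : RatFunc E) : exTl E (algebraMap (RatFunc E) (RatFunc (RatFunc E)) x) =
    HahnSeries.C (D.exInf E x) := by
  unfold exTl
  rw [RingHom.comp_apply, ex_C']
  ext k
  rw [FUN.mapL_coeff, HahnSeries.C_apply, HahnSeries.C_apply]
  by_cases h : k = 0
  · subst h; simp
  · rw [HahnSeries.coeff_single_of_ne h, HahnSeries.coeff_single_of_ne h, map_zero]

theorem exTl_X : exTl E RatFunc.X = HahnSeries.single 1 1 := by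
  unfold exTl
  rw [RingHom.comp_apply, ex_X']
  ext k
  rw [FUN.mapL_coeff]
  by_cases h : k = 1
  · subst h; simp
  · rw [HahnSeries.coeff_single_of_ne h, HahnSeries.coeff_single_of_ne h, map_zero]

/-- equality test for `swp` -/
theorem swp_ext {f : LaurentSeries (Polynomial E)} {F : LaurentSeries (LaurentSeries E)}
    (h0 : ∀ j : ℤ, j < 0 → F.coeff j = 0)
    (h : ∀ (j : ℕ) (k : ℤ), (F.coeff (j : ℤ)).coeff k = (f.coeff k).coeff j) : swp E f = F := by
  refine HahnSeries.ext (funext fun j => ?_)
  rcases lt_or_ge j 0 with hj | hj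
  · rw [swp_coeff_neg f j hj, h0 j hj]
  · obtain ⟨m, rfl⟩ := Int.eq_ofNat_of_zero_le hj
    refine HahnSeries.ext (funext fun k => ?_)
    rw [swp_coeff, h]

theorem swp_single : swp E (HahnSeries.single (-1) 1) =
    HahnSeries.C (HahnSeries.single (-1) 1) := by
  refine swp_ext ?_ ?_
  · intro j hj
    rw [HahnSeries.C_apply, HahnSeries.coeff_single_of_ne (by omega)]
  · intro j k
    rw [HahnSeries.C_apply]
    by_cases hj : j = 0
    · subst hj
      by_cases hk : k = -1
      · subst hk; simp
      · simp [HahnSeries.coeff_single_of_ne hk]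
    · rw [HahnSeries.coeff_single_of_ne (by omega)]
      by_cases hk : k = -1
      · subst hk; simp [Polynomial.coeff_one, hj]
      · simp [HahnSeries.coeff_single_of_ne hk]

theorem swp_CC (x : E) : swp E (HahnSeries.C (Polynomial.C x)) =
    HahnSeries.C (HahnSeries.C x) := by
  refine swp_ext ?_ ?_
  · intro j hj
    rw [HahnSeries.C_apply, HahnSeries.coeff_single_of_ne (by omega)]
  · intro j k
    rw [HahnSeries.C_apply, HahnSeries.C_apply, HahnSeries.C_apply]
    by_cases hj : j = 0
    · subst hj
      by_cases hk : k = 0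
      · subst hk; simp
      · simp [HahnSeries.coeff_single_of_ne hk]
    · rw [HahnSeries.coeff_single_of_ne (by omega)]
      by_cases hk : k = 0
      · subst hk; simp [Polynomial.coeff_C, hj]
      · simp [HahnSeries.coeff_single_of_ne hk]

theorem swp_CX : swp E (HahnSeries.C Polynomial.X) = HahnSeries.single 1 1 := by
  refine swp_ext ?_ ?_
  · intro j hj
    rw [HahnSeries.coeff_single_of_ne (by omega)]
  · intro j k
    rw [HahnSeries.C_apply]
    by_cases hj : j = 1
    · subst hj
      by_cases hk : k = 0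
      · subst hk; simp
      · simp [HahnSeries.coeff_single_of_ne hk, HahnSeries.coeff_one, hk]
    · rw [HahnSeries.coeff_single_of_ne (by omega)]
      by_cases hk : k = 0
      · subst hk
        have : ¬ 1 = j := fun h => hj h.symm
        simp [Polynomial.coeff_X, this]
      · simp [HahnSeries.coeff_single_of_ne hk]

end

section
variable {n : ℕ}

theorem ez_map {A B : Type} [CommRing A] [CommRing B] (φ : A →+* B) (i : Fin (n + 1))
    (f : Poly n A) : ez i (map φ f) = map φ (ez i f) := by
  unfold ez
  rw [Derivation.smul_apply, Derivation.smul_apply, pderiv_map, smul_eq_mul,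
    smul_eq_mul, map_mul, map_X]

theorem Dop_map {A B : Type} [CommRing A] [CommRing B] (φ : A →+* B) (P : Poly n A)
    (i : Fin (n + 1)) (f : Poly n A) : Dop (map φ P) i (map φ f) = map φ (Dop P i f) := by
  rw [Dop_apply, Dop_apply, ez_map, ez_map, map_sub, map_add, map_mul]

theorem Sg_hom {A : Type} [CommRing A] (D : ℕ) : (Sg n A ^ D).IsHomogeneous D := by
  have h : (Sg n A).IsHomogeneous 1 :=
    IsHomogeneous.sum _ _ _ fun i _ => isHomogeneous_X _ _
  have := h.pow D
  rwa [one_mul] at this

theorem fer_hom {A : Type} [CommRing A] (D : ℕ) :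
    (∑ i, X i ^ D : Poly n A).IsHomogeneous D := by
  refine IsHomogeneous.sum _ _ _ fun i _ => ?_
  have := (isHomogeneous_X A i).pow D
  rwa [one_mul] at this

theorem C_hom {A : Type} [CommRing A] (D : ℕ) (c : A) {f : Poly n A} (hf : f.IsHomogeneous D) :
    (C c * f).IsHomogeneous D := by
  have h := (isHomogeneous_C (Fin (n + 1)) c).mul hf
  rwa [zero_add] at h

variable {E : Type} [Field E]

theorem X1p_hom (D : ℕ) {N : Poly n E} (hN : N.IsHomogeneous D) :
    (X1p D N).IsHomogeneous D := by
  unfold X1p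
  exact (hN.map _).sub (C_hom D _ (fer_hom D))

theorem PL_hom {B : Type} [CommRing B] (D : ℕ) {X1 : Poly n B} (hX : X1.IsHomogeneous D) :
    (PL D X1).IsHomogeneous D := by
  unfold PL
  exact (C_hom D _ (Sg_hom D)).sub (hX.map _)

theorem Psl_hom (D : ℕ) {N : Poly n E} (hN : N.IsHomogeneous D) :
    (Psl D N).IsHomogeneous D := by
  unfold Psl ferm P0s
  exact (((C_hom D _ (Sg_hom D)).sub (hN.map _)).map _).add (C_hom D _ (fer_hom D))

theorem Psl_eq (D : ℕ) (N : Poly n E) :
    map (exTl E) (Psl D N) = map (swp E) (PL D (X1p D N)) := by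
  have hS : ∀ (A B : Type) [CommRing A] [CommRing B] (f : A →+* B),
      map f (Sg n A ^ D) = Sg n B ^ D := by
    intro A B _ _ f
    unfold Sg
    simp only [map_pow, map_sum, map_X]
  have hF : ∀ (A B : Type) [CommRing A] [CommRing B] (f : A →+* B),
      map f (∑ i, X i ^ D : Poly n A) = ∑ i, X i ^ D := by
    intro A B _ _ f
    simp only [map_pow, map_sum, map_X]
  have hN : map (exTl E) (map (algebraMap (RatFunc E) (RatFunc (RatFunc E)))
      (map (algebraMap E (RatFunc E)) N)) =
      map (swp E) (map (HahnSeries.C : Polynomial E →+* LaurentSeries (Polynomial E))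
        (map Polynomial.C N)) := by
    rw [MvPolynomial.map_map, MvPolynomial.map_map, MvPolynomial.map_map, MvPolynomial.map_map]
    congr 2
    ext x : 1
    simp only [RingHom.comp_apply]
    rw [exTl_C, Pool.CUBE.D.exInf_C, swp_CC]
  unfold Psl ferm P0s PL X1p
  simp only [map_add, map_sub, map_mul, map_C, hS, hF, hN, exTl_X, exTl_C, Pool.CUBE.D.exInf_X, swp_single,
    swp_CX]
  ring

variable [CharZero E]

theorem J2_map (D : ℕ) (N : Poly n E) (h : Poly n (LaurentSeries (Polynomial E))) :
    J2 D N (map (swp E) h) = swp E (JL D (X1p D N) h) := by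
  induction h using MvPolynomial.induction_on' with
  | monomial a r =>
    rw [map_monomial, J2, JL, linMon_monomial, linMon_monomial, smul_eq_mul, smul_eq_mul, map_mul]
  | add g1 g2 h1 h2 => rw [map_add, map_add, h1, h2, map_add, map_add]

omit [CharZero E] in
theorem X1p_zero (D : ℕ) (N : Poly n E) :
    map (Polynomial.constantCoeff) (X1p D N) = N := by
  unfold X1p
  rw [map_sub, map_mul, map_C, MvPolynomial.map_map]
  have h1 : (Polynomial.constantCoeff.comp Polynomial.C : E →+* E) = RingHom.id E := by
    ext x; simp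
  rw [h1, map_id]
  simp

end

end JT0H

open JT0H

theorem JT0_proof (hJR : JRStmt) (hJE : JEStmt) (hEPW : EPWStmt) : JT0Stmt := by
  intro E _ _ n D hD N hN
  have hX1 := X1p_hom D hN
  have hP := Psl_eq D N
  refine ⟨hP, ?_, ?_, ?_⟩
  · intro i g
    obtain ⟨hr, -⟩ := hJR (Polynomial E) n D hD (X1p D N) hX1
    have hsum : g = ∑ a ∈ g.support, g.coeff a • (monomial a (1 : LaurentSeries (LaurentSeries E))) := by
      conv_lhs => rw [← g.support_sum_monomial_coeff]
      refine Finset.sum_congr rfl fun a _ => ?_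
      rw [smul_monomial, smul_eq_mul, mul_one]
    rw [hsum, map_sum, map_sum]
    refine Finset.sum_eq_zero fun a _ => ?_
    rw [map_smul, map_smul, hP, smul_eq_mul]
    have h1 : (monomial a (1 : LaurentSeries (LaurentSeries E)) : Poly n _) =
        map (swp E) (monomial a 1) := by
      rw [map_monomial, map_one (swp E)]
    rw [h1, Dop_map, J2_map, hr, map_zero]
    exact mul_zero (M₀ := LaurentSeries (LaurentSeries E)) (coeff a g)
  · rw [← (hEPW _ n D hD (Psl D N) (Psl_hom D hN)).2.1 _ (exTl E), hP,
      (hEPW _ n D hD (PL D (X1p D N)) (PL_hom D hX1)).2.1 _ (swp E), J2_map,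
      hJE (Polynomial E) n D hD (X1p D N) hX1, map_one]
  · intro a
    have hval : J2 D N (monomial a 1) = swp E (jL D (X1p D N) a) := by
      rw [J2, linMon_monomial, one_smul]
    rw [hval]
    refine ⟨fun k hk => swp_coeff_neg _ k hk, ?_, ?_⟩
    · intro k k' hk'
      rcases lt_or_ge k 0 with hk | hk
      · rw [swp_coeff_neg _ k hk, HahnSeries.coeff_zero]
      · obtain ⟨m, rfl⟩ := Int.eq_ofNat_of_zero_le hk
        rw [swp_coeff]
        have h1 : (jL D (X1p D N) a).coeff k' = 0 := by
          unfold jL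
          rcases lt_or_eq_of_le hk' with h | h
          · rw [HahnSeries.ofPowerSeries_apply]
            refine HahnSeries.embDomain_of_notMem_range ?_
            rintro ⟨q, hq⟩
            have : (q : ℤ) = k' := hq
            omega
          · subst h
            have h2 : (0 : ℤ) = ((0 : ℕ) : ℤ) := rfl
            rw [h2, HahnSeries.ofPowerSeries_apply_coeff, PowerSeries.coeff_mk, if_pos rfl]
        rw [h1, Polynomial.coeff_zero]
    · intro k
      have h0 : ((swp E (jL D (X1p D N) a)).coeff 0) =
          ((swp E (jL D (X1p D N) a)).coeff ((0 : ℕ) : ℤ)) := rfl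
      rw [h0, swp_coeff]
      have h1 : (jL D (X1p D N) a).coeff ((k : ℤ) + 1) = aN D (X1p D N) k (monomial a 1) := by
        unfold jL
        have h2 : ((k : ℤ) + 1) = ((k + 1 : ℕ) : ℤ) := by push_cast; rfl
        rw [h2, HahnSeries.ofPowerSeries_apply_coeff, PowerSeries.coeff_mk,
          if_neg (Nat.succ_ne_zero k), Nat.add_sub_cancel]
      rw [h1]
      have h3 := aN_map (Polynomial.constantCoeff : Polynomial E →+* E) D (X1p D N) k a
      rw [X1p_zero] at h3
      exact h3

end Pool.CUBE
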