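import Pool.Agent.H38.CUBE.JJStmts

set_option autoImplicit false

open Polynomial

namespace Pool.CUBE

open Pool.CM Pool.H93.Cube

namespace J_COE

section gen
variable {E : Type} [Field E]

theorem coeff_single_mul' {R : Type} [CommRing R] (k l : ℤ) (r : R) (f : LaurentSeries R) :
    (HahnSeries.single k r * f).coeff l = r * f.coeff (l - k) := by
  have h := HahnSeries.coeff_single_mul_add (r := r) (x := f) (a := l - k) (b := k)
  rwa [sub_add_cancel] at h

theorem coeff_C_mul' {R : Type} [CommRing R] (l : ℤ) (r : R) (f : LaurentSeries R) :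
    (HahnSeries.C r * f).coeff l = r * f.coeff l := by
  rw [HahnSeries.C_mul_eq_smul, HahnSeries.coeff_smul, smul_eq_mul]

theorem C_pow' {R : Type} [CommRing R] (r : R) (k : ℕ) :
    (HahnSeries.C r : LaurentSeries R) ^ k = HahnSeries.C (r ^ k) :=
  (map_pow (HahnSeries.C : R →+* LaurentSeries R) r k).symm

theorem single_pow' {R : Type} [CommRing R] (k : ℕ) :
    (HahnSeries.single (1 : ℤ) (1 : R) : LaurentSeries R) ^ k = HahnSeries.single (k : ℤ) 1 := by
  rw [HahnSeries.single_pow]
  simp

theorem exP_C (x : E) : exP E (Polynomial.C x) = HahnSeries.C x := by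
  ext k
  rcases lt_or_ge k 0 with hk | hk
  · rw [exP_coeff_neg _ _ hk, HahnSeries.C_apply, HahnSeries.coeff_single_of_ne (by omega)]
  · obtain ⟨m, rfl⟩ := Int.eq_ofNat_of_zero_le hk
    rw [exP_coeff_nat, Polynomial.coeff_C, HahnSeries.C_apply]
    by_cases h : m = 0
    · subst h; simp
    · rw [if_neg h, HahnSeries.coeff_single_of_ne (by omega)]

theorem exP_X : exP E Polynomial.X = HahnSeries.single 1 1 := by
  ext k
  rcases lt_or_ge k 0 with hk | hk
  · rw [exP_coeff_neg _ _ hk, HahnSeries.coeff_single_of_ne (by omega)]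
  · obtain ⟨m, rfl⟩ := Int.eq_ofNat_of_zero_le hk
    rw [exP_coeff_nat, Polynomial.coeff_X]
    by_cases h : m = 1
    · subst h; simp
    · rw [if_neg (fun h' => h h'.symm), HahnSeries.coeff_single_of_ne (by omega)]

theorem ex_C' (x : E) : ex E (RatFunc.C x) = HahnSeries.C x := by
  rw [← RatFunc.algebraMap_C, ex_algebraMap, exP_C]

theorem ex_X' : ex E RatFunc.X = HahnSeries.single 1 1 := by
  rw [← RatFunc.algebraMap_X, ex_algebraMap, exP_X]

open Corner in
theorem ex3_lam : ex3 E (lamF E) = HahnSeries.single 1 1 := by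
  unfold ex3 lamF
  rw [RingHom.comp_apply, ex_X', cmapR_single, map_one]

open Corner in
theorem ex3_sig : ex3 E (sigF E) = HahnSeries.C (HahnSeries.single 1 1) := by
  unfold ex3 sigF
  rw [RingHom.comp_apply, ex_C', cmapR_C, RingHom.comp_apply, ex_X', cmapR_single, map_one]

open Corner in
theorem ex3_tau : ex3 E (tauF E) = HahnSeries.C (HahnSeries.C (HahnSeries.single 1 1)) := by
  unfold ex3 tauF
  rw [RingHom.comp_apply, ex_C', cmapR_C, RingHom.comp_apply, ex_C', cmapR_C, ex_X']

open Corner in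
theorem ex3_cF (x : E) : ex3 E (cF E x) = HahnSeries.C (HahnSeries.C (HahnSeries.C x)) := by
  unfold ex3 cF
  rw [RingHom.comp_apply, RingHom.comp_apply, RingHom.comp_apply, ex_C', cmapR_C,
    RingHom.comp_apply, ex_C', cmapR_C, ex_C']

/-- coefficient -/
noncomputable def ev (l s t : ℤ) : T3 E →+ E where
  toFun F := ((F.coeff l).coeff s).coeff t
  map_zero' := by simp
  map_add' F G := by
    have h1 : (F + G).coeff l = F.coeff l + G.coeff l := HahnSeries.coeff_add
    rw [h1]
    simp

theorem ev_apply (l s t : ℤ) (F : T3 E) : ev l s t F = ((F.coeff l).coeff s).coeff t := rfl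

theorem ev_cF (l s t : ℤ) (x : E) (F : T3 E) :
    ev l s t (ex3 E (Corner.cF E x) * F) = x * ev l s t F := by
  rw [ev_apply, ex3_cF, coeff_C_mul', coeff_C_mul', coeff_C_mul', ev_apply]

open Corner in
theorem ev_shift (u v w : ℕ) (l s t : ℤ) (F : T3 E) :
    ev l s t (ex3 E (lamF E ^ u * sigF E ^ v * tauF E ^ w) * F) =
      ev (l - u) (s - v) (t - w) F := by
  have h1 : ex3 E (lamF E ^ u * sigF E ^ v * tauF E ^ w) =
      HahnSeries.single (u : ℤ) 1 * HahnSeries.C (HahnSeries.single (v : ℤ) 1) *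
        HahnSeries.C (HahnSeries.C (HahnSeries.single (w : ℤ) 1)) := by
    rw [map_mul (ex3 E), map_mul (ex3 E), map_pow, map_pow, map_pow, ex3_lam, ex3_sig, ex3_tau,
      C_pow', C_pow', C_pow', single_pow', single_pow', single_pow']
  rw [h1, ev_apply, mul_assoc, mul_assoc, coeff_single_mul', one_mul, coeff_C_mul',
    coeff_single_mul', one_mul, coeff_C_mul', coeff_C_mul', coeff_single_mul', one_mul, ev_apply]

end gen

section lin
variable {n : ℕ} {E : Type} [Field E] (K : Corner n E)

theorem Ainf_add (L : ℕ) (g h : MvPolynomial (Fin (n + 1)) E) (l t : ℕ) (N : ℤ) :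
    K.Ainf L (g + h) l t N = K.Ainf L g l t N + K.Ainf L h l t N := by
  unfold Corner.Ainf
  split_ifs
  · rw [add_mul, add_mul, map_add, mul_add]
  · rw [add_zero]

theorem Ainf_smul (L : ℕ) (x : E) (g : MvPolynomial (Fin (n + 1)) E) (l t : ℕ) (N : ℤ) :
    K.Ainf L (x • g) l t N = x * K.Ainf L g l t N := by
  unfold Corner.Ainf
  split_ifs
  · rw [smul_mul_assoc, smul_mul_assoc, map_smul, smul_eq_mul]
    ring
  · rw [mul_zero]

theorem affR_algebraMap (u v : E) (hu : u ≠ 0) (g : E[X]) :
    affR u v hu (algebraMap E[X] (RatFunc E) g) = algebraMap E[X] (RatFunc E) (affP u v g) := by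
  unfold affR
  rw [RatFunc.coe_mapRingHom_eq_coe_map]
  have := RatFunc.map_apply_div (affP u v) (affP_le u v hu) g 1
  simpa using this

theorem affR_C (u v : E) (hu : u ≠ 0) (x : E) : affR u v hu (RatFunc.C x) = RatFunc.C x := by
  rw [← RatFunc.algebraMap_C, affR_algebraMap]
  congr 1
  unfold affP
  simp

theorem rr_add (L : ℕ) (g h : MvPolynomial (Fin (n + 1)) E) (l t : ℕ) :
    K.rr L (g + h) l t = K.rr L g l t + K.rr L h l t := by
  unfold Corner.rr
  have h1 : (∑ j ∈ Finset.range (t + 1), binR E j *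
        Mell K.μ (zc ((g + h) * Corner.fer n K.D E ^ l) * (K.w ^ j).coeff t)) =
      (∑ j ∈ Finset.range (t + 1), binR E j *
        Mell K.μ (zc (g * Corner.fer n K.D E ^ l) * (K.w ^ j).coeff t)) +
      ∑ j ∈ Finset.range (t + 1), binR E j *
        Mell K.μ (zc (h * Corner.fer n K.D E ^ l) * (K.w ^ j).coeff t) := by
    rw [← Finset.sum_add_distrib]
    refine Finset.sum_congr rfl fun j _ => ?_
    rw [add_mul, map_add, add_mul, map_add, mul_add]
  rw [h1, map_add, mul_add]

theorem rr_smul (L : ℕ) (x : E) (g : MvPolynomial (Fin (n + 1)) E) (l t : ℕ) :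
    K.rr L (x • g) l t = RatFunc.C x * K.rr L g l t := by
  unfold Corner.rr
  have h1 : (∑ j ∈ Finset.range (t + 1), binR E j *
        Mell K.μ (zc ((x • g) * Corner.fer n K.D E ^ l) * (K.w ^ j).coeff t)) =
      RatFunc.C x * ∑ j ∈ Finset.range (t + 1), binR E j *
        Mell K.μ (zc (g * Corner.fer n K.D E ^ l) * (K.w ^ j).coeff t) := by
    rw [Finset.mul_sum]
    refine Finset.sum_congr rfl fun j _ => ?_
    rw [smul_mul_assoc, map_smul, smul_mul_assoc, map_smul, RatFunc.smul_eq_C_mul, mul_left_comm]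
  rw [h1, map_mul, affR_C, mul_left_comm]

end lin

section main
variable {n : ℕ} {E : Type} [Field E] [CharZero E] (K : Corner n E)

/-- the coefficients of `JJ_j` on a polynomial over `E` of level `L` -/
theorem coe_base (hRC : RCStmt) (hDEL : Corner.DELStmt) (j L : ℕ)
    (g : MvPolynomial (Fin (n + 1)) E) (hL : n + 1 ≤ K.D * L)
    (hg : g.IsHomogeneous (K.D * L - (n + 1))) (l s t : ℤ) :
    ev l s t (K.JJ j (MvPolynomial.map (Corner.cF E) g)) =
      if 0 ≤ l ∧ 0 ≤ t then
        (if j = 0 then K.Ainf L g l.toNat t.toNat (-s - 1) else 0) -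
          Rc j (-s - 1) (K.rr L g l.toNat t.toNat)
      else 0 := by
  obtain ⟨hR1, hR2, -⟩ := hRC E
  -- the value on a linear combination
  let φ : MvPolynomial (Fin (n + 1)) E →+ E :=
    { toFun := fun g => if 0 ≤ l ∧ 0 ≤ t then
        (if j = 0 then K.Ainf L g l.toNat t.toNat (-s - 1) else 0) -
          Rc j (-s - 1) (K.rr L g l.toNat t.toNat)
      else 0
      map_zero' := by
        have h1 := Ainf_smul K L 0 0 l.toNat t.toNat (-s - 1)
        have h2 := rr_smul K L 0 0 l.toNat t.toNat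
        rw [zero_smul, zero_mul] at h1
        rw [zero_smul] at h2
        rw [h1, h2, hR2]
        simp
      map_add' := fun g h => by
        rw [Ainf_add, rr_add, hR1]
        split_ifs <;> ring }
  have hφ : ∀ g, φ g = if 0 ≤ l ∧ 0 ≤ t then
        (if j = 0 then K.Ainf L g l.toNat t.toNat (-s - 1) else 0) -
          Rc j (-s - 1) (K.rr L g l.toNat t.toNat)
      else 0 := fun g => rfl
  have hφs : ∀ x g, φ (x • g) = x * φ g := by
    intro x g
    rw [hφ, hφ, Ainf_smul, rr_smul, hR2]
    split_ifs <;> ring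
  rw [← hφ g]
  have hsum : g = ∑ a ∈ g.support, g.coeff a • (MvPolynomial.monomial a 1) := by
    conv_lhs => rw [← g.support_sum_monomial_coeff]
    refine Finset.sum_congr rfl fun a _ => ?_
    rw [MvPolynomial.smul_monomial, smul_eq_mul, mul_one]
  have hR : φ g = ∑ a ∈ g.support, g.coeff a * φ (MvPolynomial.monomial a 1) := by
    conv_lhs => rw [hsum]
    rw [map_sum]
    exact Finset.sum_congr rfl fun a _ => hφs _ _
  rw [hR]
  have hcinj : Function.Injective (Corner.cF E) := (Corner.cF E).injective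
  have hJ : K.JJ j (MvPolynomial.map (Corner.cF E) g) =
      ∑ a ∈ g.support, ex3 E (Corner.cF E (g.coeff a)) * K.del j a := by
    change ∑ a ∈ (MvPolynomial.map (Corner.cF E) g).support, _ = _
    rw [MvPolynomial.support_map_of_injective _ hcinj]
    refine Finset.sum_congr rfl fun a _ => ?_
    rw [MvPolynomial.coeff_map]
  rw [hJ, map_sum]
  refine Finset.sum_congr rfl fun a ha => ?_
  rw [ev_cF]
  congr 1
  have hdeg : a.degree = K.D * L - (n + 1) := by
    have h1 := hg (MvPolynomial.mem_support_iff.mp ha)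
    rw [← h1, Finsupp.degree_eq_weight_one]
    rfl
  have hdeg' : a.degree + (n + 1) = K.D * L := by omega
  have hlv : K.lv a = L := by
    unfold Corner.lv
    rw [hdeg', Nat.mul_div_cancel_left _ K.hD]
  rw [hφ, ev_apply, hDEL n E K j a (by rw [hdeg']; exact Dvd.intro _ rfl) l s t, hlv]

end main

end J_COE

open J_COE in
theorem coe_thm (hRC : RCStmt) (hDEL : Corner.DELStmt) (hLIN : Corner.LINStmt) :
    Corner.COEStmt := by
  intro n E _ _ K j L g u v w hL hg hn l s t
  have h1 : MvPolynomial.C (Corner.lamF E ^ u * Corner.sigF E ^ v * Corner.tauF E ^ w) *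
      MvPolynomial.map (Corner.cF E) g =
      (Corner.lamF E ^ u * Corner.sigF E ^ v * Corner.tauF E ^ w) •
        MvPolynomial.map (Corner.cF E) g := by
    rw [MvPolynomial.C_mul']
  rw [← ev_apply, h1, hLIN, ev_shift, coe_base K hRC hDEL j L g hn hg]
  have h2 : (0 ≤ l - (u : ℤ) ∧ 0 ≤ t - (w : ℤ)) ↔ ((u : ℤ) ≤ l ∧ (w : ℤ) ≤ t) := by
    constructor <;> rintro ⟨h, h'⟩ <;> constructor <;> omega
  simp only [h2]

end Pool.CUBE
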