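import Pool.Agent.H38.CUBE.JJStmts2
import Pool.Agent.H38.CUBE.JJAct

set_option autoImplicit false

open Polynomial

namespace Pool.CUBE

open Pool.CM Pool.H93.Cube

namespace F_RJP

variable {X : Idx} {E : Type} [Field E]

/-- integral polynomials of degree `≤ d`, as rational functions -/
noncomputable def SD (A : PF X E) (i : X.I) (d : ℕ) : AddSubgroup (RatFunc E) where
  carrier := {r | ∃ g : E[X], A.Int i g ∧ g.natDegree ≤ d ∧ r = algebraMap E[X] (RatFunc E) g}
  add_mem' := by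
    rintro r s ⟨g, hg, hd, rfl⟩ ⟨h, hh, hd', rfl⟩
    exact ⟨g + h, PF.Int.add A hg hh, (Polynomial.natDegree_add_le _ _).trans (max_le hd hd'),
      (map_add _ _ _).symm⟩
  zero_mem' := ⟨0, PF.Int.zero A, by simp, (map_zero _).symm⟩
  neg_mem' := by
    rintro r ⟨g, hg, hd, rfl⟩
    exact ⟨-g, PF.Int.neg A hg, by rwa [Polynomial.natDegree_neg], (map_neg _ _).symm⟩

theorem mem_SD (A : PF X E) (i : X.I) (d : ℕ) (r : RatFunc E) :
    r ∈ SD A i d ↔ ∃ g : E[X], A.Int i g ∧ g.natDegree ≤ d ∧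
      r = algebraMap E[X] (RatFunc E) g := Iff.rfl

theorem smul_mem_SD (A : PF X E) (i : X.I) (d : ℕ) (x : E) (hx : x ∈ A.O i) (r : RatFunc E)
    (hr : r ∈ SD A i d) : x • r ∈ SD A i d := by
  obtain ⟨g, hg, hd, rfl⟩ := hr
  refine ⟨Polynomial.C x * g, ?_, ?_, ?_⟩
  · intro n
    rw [Polynomial.coeff_C_mul]
    exact (A.O i).mul_mem hx (hg n)
  · exact (Polynomial.natDegree_C_mul_le _ _).trans hd
  · rw [← Polynomial.smul_eq_C_mul, Algebra.smul_def x (algebraMap E[X] (RatFunc E) g),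
      Algebra.smul_def x g, map_mul]
    rfl

end F_RJP

open F_RJP in
theorem RJP_thm (hRHO : Corner.RHOStmt) (hFIXR : Corner.FIXRStmt) : Corner.RJPStmt := by
  intro X E _ _ A hA n K J C
  obtain ⟨c0, hc0⟩ := hFIXR X E A hA n K (max C J)
  refine ⟨c0, fun c hc => ?_⟩
  obtain ⟨d, hd⟩ := hc0 c hc
  refine ⟨d, ?_⟩
  have h1 := hRHO X E A hA n K J
  refine (hd.and h1).mono ?_
  rintro i ⟨hi, -, hrho⟩ a l t e hDa hlv hl ht he
  obtain ⟨hb1, hb2⟩ := hrho a hDa hlv
  suffices h : algebraMap E[X] (RatFunc E) (qq E c K.D) ^ n *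
        K.RJ (A.phi i) (X.p i) (K.rho3 (A.phi i) (X.p i) J a) e l t ∈ SD A i d from h
  set g := K.rho3 (A.phi i) (X.p i) J a with hg
  unfold Corner.RJ
  rw [Finset.mul_sum]
  refine AddSubgroup.sum_mem _ fun b hb => ?_
  have hbne := MvPolynomial.mem_support_iff.1 hb
  obtain ⟨hDb, hlvb, hkb⟩ := hb1 b hbne
  have hmap := map_act (E := E)
    (AddMonoidHom.mulLeft (algebraMap E[X] (RatFunc E) (qq E c K.D) ^ n))
    (fun e v => by
      rw [AddMonoidHom.coe_mulLeft]
      exact mul_smul_comm e _ v)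
    (MvPolynomial.coeff b g) (K.RF (A.phi i) (X.p i) b) l (-(e : ℤ) - 1) t
  rw [AddMonoidHom.coe_mulLeft] at hmap
  rw [hmap]
  refine act_mem _ _ _ _ _ _ fun k u w hkuw => ?_
  refine smul_mem_SD A i d _ (hb2 b k u w) _ ?_
  have hk0 : (MvPolynomial.coeff b g).coeff k ≠ 0 := by
    intro h
    rw [h] at hkuw
    simp at hkuw
  have hk1 := hkb k hk0
  change algebraMap E[X] (RatFunc E) (qq E c K.D) ^ n *
    K.RF (A.phi i) (X.p i) b (l - u) (-(e : ℤ) - 1 - k) (t - w) ∈ SD A i d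
  unfold Corner.RF
  split_ifs with hcond
  · obtain ⟨⟨l', hl'⟩, ⟨s', hs'⟩, ⟨t', ht'⟩, -, hl0, ht0⟩ := hcond
    have hp : (0 : ℤ) < X.p i := by exact_mod_cast (X.hp i).pos
    have hpne : (X.p i : ℤ) ≠ 0 := hp.ne'
    rw [hl', hs', ht', Int.mul_ediv_cancel_left _ hpne, Int.mul_ediv_cancel_left _ hpne,
      Int.mul_ediv_cancel_left _ hpne]
    rw [hl'] at hl0
    rw [ht'] at ht0
    have hl1 : 0 ≤ l' := by
      by_contra hc
      push Not at hc
      nlinarith
    have ht1 : 0 ≤ t' := by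
      by_contra hc
      push Not at hc
      nlinarith
    have hl2 : l' ≤ C := by
      have h2 : (X.p i : ℤ) * l' ≤ (X.p i : ℤ) * C := by
        rw [← hl']
        push_cast at hl
        nlinarith
      exact le_of_mul_le_mul_left h2 hp
    have ht2 : t' ≤ C := by
      have h2 : (X.p i : ℤ) * t' ≤ (X.p i : ℤ) * C := by
        rw [← ht']
        push_cast at ht
        nlinarith
      exact le_of_mul_le_mul_left h2 hp
    have hs1 : s' ≤ -1 := by
      by_contra hc
      have hc' : 0 ≤ s' := by omega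
      nlinarith
    have hs2 : -(s' : ℤ) - 1 ≤ J := by
      have h3 : (X.p i : ℤ) * (-s' - 1) < (X.p i : ℤ) * ((J : ℤ) + 1) := by
        have h4 : ((k + K.lv a : ℕ) : ℤ) ≤ ((X.p i * K.lv b : ℕ) : ℤ) := by exact_mod_cast hk1
        have h5 : ((K.lv b : ℕ) : ℤ) ≤ J := by exact_mod_cast hlvb
        have h6 : (X.p i : ℤ) * (K.lv b : ℤ) ≤ (X.p i : ℤ) * J :=
          mul_le_mul_of_nonneg_left h5 hp.le
        have h7 : (e : ℤ) < X.p i := by exact_mod_cast he
        push_cast at h4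
        have h8 : (X.p i : ℤ) * (-s' - 1) = e + 1 + k - X.p i := by
          have : (X.p i : ℤ) * s' = -(e : ℤ) - 1 - k := hs'.symm
          nlinarith
        rw [h8]
        nlinarith [Int.natCast_nonneg (K.lv a)]
      have h9 := lt_of_mul_lt_mul_left h3 hp.le
      omega
    obtain ⟨g1, hg1, hg1d, hg1e⟩ := hi b l'.toNat t'.toNat (-s' - 1) hDb
      (hlvb.trans (le_max_right _ _)) (by
        have := le_max_left C J
        omega) (by
        have := le_max_left C J
        omega) (by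
        have := le_max_right C J
        rw [abs_le]
        omega)
    exact ⟨g1, hg1, hg1d, hg1e⟩
  · rw [mul_zero]
    exact (SD A i d).zero_mem

end Pool.CUBE
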