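import Pool.Agent.H87.CUBE.J_COE

set_option autoImplicit false

open Polynomial

namespace Pool.CUBE

open Pool.CM Pool.H93.Cube

namespace J_JJREL

open J_COE

section gen
variable {n : ℕ} {A B : Type} [CommRing A] [CommRing B]

theorem ez_C_mul (i : Fin (n + 1)) (c : A) (f : MvPolynomial (Fin (n + 1)) A) :
    ez i (MvPolynomial.C c * f) = MvPolynomial.C c * ez i f := by
  rw [MvPolynomial.C_mul', Derivation.map_smul, MvPolynomial.C_mul']

theorem ez_map (φ : A →+* B) (i : Fin (n + 1)) (f : MvPolynomial (Fin (n + 1)) A) :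
    ez i (MvPolynomial.map φ f) = MvPolynomial.map φ (ez i f) := by
  unfold ez
  rw [Derivation.smul_apply, Derivation.smul_apply, MvPolynomial.pderiv_map, smul_eq_mul,
    smul_eq_mul, map_mul, MvPolynomial.map_X]

theorem ez_hom (i : Fin (n + 1)) (f : MvPolynomial (Fin (n + 1)) A) (d : ℕ)
    (hf : f.IsHomogeneous d) : (ez i f).IsHomogeneous d := by
  rw [← f.support_sum_monomial_coeff, map_sum]
  refine MvPolynomial.IsHomogeneous.sum _ _ _ fun a ha => ?_
  rw [ez_monomial]
  refine MvPolynomial.isHomogeneous_monomial _ ?_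
  have h1 := hf (MvPolynomial.mem_support_iff.mp ha)
  rw [← h1, Finsupp.degree_eq_weight_one]
  rfl

theorem hom_deg {f : MvPolynomial (Fin (n + 1)) A} {d : ℕ} (hf : f.IsHomogeneous d)
    {a : Fin (n + 1) →₀ ℕ} (ha : MvPolynomial.coeff a f ≠ 0) : a.degree = d := by
  rw [← hf ha, Finsupp.degree_eq_weight_one]
  rfl

theorem ext3 {E : Type} [Field E] {F : T3 E} (h : ∀ l s t, ev l s t F = 0) : F = 0 := by
  refine HahnSeries.ext (funext fun l => ?_)
  refine HahnSeries.ext (funext fun s => ?_)
  refine HahnSeries.ext (funext fun t => ?_)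
  have h1 := h l s t
  rw [ev_apply] at h1
  rw [h1]
  simp

theorem homD_hom (D : ℕ) (f : MvPolynomial (Fin n) A) (hf : f.totalDegree ≤ D) :
    (homD D f : MvPolynomial (Fin (n + 1)) A).IsHomogeneous D := by
  rw [← f.support_sum_monomial_coeff, map_sum]
  refine MvPolynomial.IsHomogeneous.sum _ _ _ fun a ha => ?_
  have h1 : a.degree ≤ D := le_trans (by
    have := MvPolynomial.le_totalDegree ha
    rwa [Finsupp.degree]) hf
  rw [homD, linMon_monomial]
  have hS : (SigP n A).IsHomogeneous 1 :=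
    MvPolynomial.IsHomogeneous.sum _ _ _ fun i _ => MvPolynomial.isHomogeneous_X _ _
  have hc : ∀ l, (clP n A l).IsHomogeneous 1 := fun l =>
    MvPolynomial.IsHomogeneous.sum _ _ _ fun i _ => MvPolynomial.isHomogeneous_X _ _
  have h2 := (hS.pow (D - a.degree)).mul
    (MvPolynomial.IsHomogeneous.prod Finset.univ (fun l => clP n A l ^ a l) (fun l => 1 * a l)
      (fun l _ => (hc l).pow (a l)))
  have h3 : 1 * (D - a.degree) + ∑ l, 1 * a l = D := by
    have : ∑ l, 1 * a l = a.degree := by
      simp only [one_mul]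
      rw [Finsupp.degree_eq_sum]
    rw [this]
    omega
  rw [h3] at h2
  rw [MvPolynomial.smul_eq_C_mul]
  have h4 := (MvPolynomial.isHomogeneous_C (Fin (n + 1)) (MvPolynomial.coeff a f)).mul h2
  rwa [zero_add] at h4

end gen

section main
variable {n : ℕ} {E : Type} [Field E] (K : Corner n E)

theorem G_hom (k : ℕ) : (K.G k).IsHomogeneous K.D := by
  unfold Corner.G
  refine homD_hom _ _ ?_
  refine (MvPolynomial.totalDegree_mul _ _).trans ?_
  have h1 : (MvPolynomial.monomial K.μ (1 : E)).totalDegree ≤ K.μ.degree := by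
    rw [MvPolynomial.totalDegree_monomial _ one_ne_zero]
    exact le_rfl
  have h2 : (K.W k).totalDegree ≤ (K.w.coeff k).totalDegree := by
    unfold Corner.W
    rw [Polynomial.coeff_add, Polynomial.coeff_one]
    refine (MvPolynomial.totalDegree_add _ _).trans ?_
    split_ifs
    · rw [MvPolynomial.totalDegree_one]
      exact max_le (Nat.zero_le _) le_rfl
    · rw [MvPolynomial.totalDegree_zero]
      exact max_le (Nat.zero_le _) le_rfl
  have h3 := K.hdeg k
  omega

theorem G_zero (k : ℕ) (hk : (1 + K.w).natDegree < k) : K.G k = 0 := by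
  unfold Corner.G Corner.W
  rw [Polynomial.coeff_eq_zero_of_natDegree_lt hk, mul_zero, map_zero]

theorem S_hom : (SigP n E ^ K.D).IsHomogeneous K.D := by
  have h : (SigP n E).IsHomogeneous 1 :=
    MvPolynomial.IsHomogeneous.sum _ _ _ fun i _ => MvPolynomial.isHomogeneous_X _ _
  have := h.pow K.D
  rwa [one_mul] at this

theorem fer_hom : (Corner.fer n K.D E).IsHomogeneous K.D := by
  unfold Corner.fer
  refine MvPolynomial.IsHomogeneous.sum _ _ _ fun i _ => ?_
  have := (MvPolynomial.isHomogeneous_X E i).pow K.D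
  rwa [one_mul] at this

theorem P_eq : K.P = MvPolynomial.C (Corner.sigF E) * MvPolynomial.map (Corner.cF E) (SigP n E ^ K.D) -
    (∑ k ∈ Finset.range ((1 + K.w).natDegree + 1),
      MvPolynomial.C (Corner.tauF E ^ k) * MvPolynomial.map (Corner.cF E) (K.G k)) +
    MvPolynomial.C (Corner.lamF E) * MvPolynomial.map (Corner.cF E) (Corner.fer n K.D E) := by
  have hc : ∀ f : MvPolynomial (Fin (n + 1)) E, MvPolynomial.map (algebraMap _ (F3 E))
      (MvPolynomial.map (Corner.cF2 E) f) = MvPolynomial.map (Corner.cF E) f := by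
    intro f
    rw [MvPolynomial.map_map]
    rfl
  unfold Corner.P ferm Corner.P0
  rw [map_sub, map_mul, map_sum, MvPolynomial.map_C]
  have h1 : MvPolynomial.map (algebraMap _ (F3 E)) (SigP n (RatFunc (RatFunc E)) ^ K.D) =
      MvPolynomial.map (Corner.cF E) (SigP n E ^ K.D) := by
    unfold SigP
    simp only [map_pow, map_sum, MvPolynomial.map_X]
  have h2 : ∑ i, (MvPolynomial.X i : MvPolynomial (Fin (n + 1)) (F3 E)) ^ K.D =
      MvPolynomial.map (Corner.cF E) (Corner.fer n K.D E) := by
    unfold Corner.fer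
    simp only [map_pow, map_sum, MvPolynomial.map_X]
  rw [h1, h2]
  congr 2
  refine Finset.sum_congr rfl fun k _ => ?_
  rw [map_mul, MvPolynomial.map_C, hc, map_pow]
  rfl

/-- the common value -/
noncomputable def val (j L : ℕ) (g : MvPolynomial (Fin (n + 1)) E) (l t : ℕ) (N : ℤ) : E :=
  (if j = 0 then K.Ainf L g l t N else 0) - Rc j N (K.rr L g l t)

variable [CharZero E]

theorem val_zero (hRC : RCStmt) (j L : ℕ) (l t : ℕ) (N : ℤ) : val K j L 0 l t N = 0 := by
  obtain ⟨-, hR2, -⟩ := hRC E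
  unfold val
  have h1 := Ainf_smul K L 0 0 l t N
  have h2 := rr_smul K L 0 0 l t
  rw [zero_smul, zero_mul] at h1
  rw [zero_smul] at h2
  rw [h1, h2, hR2]
  simp

theorem val_rel (hRC : RCStmt) (hAREL : Corner.ARELStmt) (hRREL : Corner.RRELStmt) (j L l t : ℕ)
    (g : MvPolynomial (Fin (n + 1)) E) (i : Fin (n + 1)) (N : ℤ) (hL : 1 ≤ L)
    (hg : g.IsHomogeneous (K.D * L - (n + 1))) (hn : n + 1 ≤ K.D * L) :
    val K j L (ez i g + g) l t N = val K j (L + 1) (ez i (SigP n E ^ K.D) * g) l t (N + 1) -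
      (∑ k ∈ Finset.range (t + 1), val K j (L + 1) (ez i (K.G k) * g) l (t - k) N) +
      (if l = 0 then 0 else
        val K j (L + 1) (ez i (Corner.fer n K.D E) * g) (l - 1) t N) := by
  obtain ⟨hR1, hR2, hR3, -⟩ := hRC E
  have hneg : ∀ (N : ℤ) (r : RatFunc E), Rc j N (-r) = -Rc j N r := by
    intro N r
    have h1 := hR2 j N (-1) r
    rwa [map_neg, map_one, neg_one_mul, neg_one_mul] at h1
  have h0 : ∀ N : ℤ, Rc j N (0 : RatFunc E) = 0 := by
    intro N
    have h1 := hR2 j N 0 0
    rwa [mul_zero, zero_mul] at h1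
  let rc : RatFunc E →+ E :=
    { toFun := fun r => Rc j N r
      map_zero' := h0 N
      map_add' := fun r s => hR1 j N r s }
  have hrc : ∀ r, rc r = Rc j N r := fun r => rfl
  have hshift : ∀ r : RatFunc E, Rc j N (affR 1 1 one_ne_zero r) = Rc j (N + 1) r := by
    intro r
    have h1 := hR3 j N 1 r
    simpa using h1
  have e1 := hRREL n E K L l t g i hL hg hn
  have e2 : Rc j N (K.rr L (ez i g + g) l t) =
      Rc j (N + 1) (K.rr (L + 1) (ez i (SigP n E ^ K.D) * g) l t) -
      (∑ k ∈ Finset.range (t + 1), Rc j N (K.rr (L + 1) (ez i (K.G k) * g) l (t - k))) +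
      (if l = 0 then 0 else
        Rc j N (K.rr (L + 1) (ez i (Corner.fer n K.D E) * g) (l - 1) t)) := by
    rw [e1, hR1, sub_eq_add_neg, hR1, hneg, hshift, ← hrc (∑ k ∈ _, _), map_sum]
    simp only [hrc]
    split_ifs
    · rw [h0]; ring
    · ring
  unfold val
  rw [e2]
  by_cases hj : j = 0
  · simp only [hj, if_true]
    rw [hAREL n E K L l t g i N hL hg hn, Finset.sum_sub_distrib]
    split_ifs
    · ring
    · ring
  · simp only [hj, if_false, zero_sub, Finset.sum_neg_distrib]
    split_ifs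
    · ring
    · ring

theorem coe_val (hCOE : Corner.COEStmt) (j L : ℕ)
    (g : MvPolynomial (Fin (n + 1)) E) (u v w : ℕ) (hL : 1 ≤ L)
    (hg : g.IsHomogeneous (K.D * L - (n + 1))) (hn : n + 1 ≤ K.D * L) (l s t : ℤ) :
    ev l s t (K.JJ j (MvPolynomial.C (Corner.lamF E ^ u * Corner.sigF E ^ v * Corner.tauF E ^ w) *
      MvPolynomial.map (Corner.cF E) g)) =
    if (u : ℤ) ≤ l ∧ (w : ℤ) ≤ t then
      val K j L g (l - u).toNat (t - w).toNat (-(s - v) - 1) else 0 := by
  rw [ev_apply, hCOE n E K j L g u v w hL hg hn l s t]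
  rfl

omit [CharZero E] in
theorem lv_zero (hJJLV : Corner.JJLVStmt) (j : ℕ) (h : MvPolynomial (Fin (n + 1)) (F3 E))
    (hh : ∀ b, MvPolynomial.coeff b h ≠ 0 → ¬ K.D ∣ b.degree + (n + 1)) : K.JJ j h = 0 := by
  rw [← h.support_sum_monomial_coeff, map_sum]
  refine Finset.sum_eq_zero fun b hb => ?_
  exact hJJLV n E K j _ b (hh b (MvPolynomial.mem_support_iff.mp hb))

end main

end J_JJREL

open J_COE J_JJREL

theorem jjrel_thm (hRC : RCStmt) (hLIN : Corner.LINStmt) (hJJLV : Corner.JJLVStmt)
    (hCOE : Corner.COEStmt) (hAREL : Corner.ARELStmt) (hRREL : Corner.RRELStmt) :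
    Corner.JJRELStmt := by
  intro n E _ _ K j i g
  -- reduction to monomials
  suffices h : ∀ a : Fin (n + 1) →₀ ℕ,
      K.JJ j (Dop K.P i (MvPolynomial.monomial a (1 : F3 E))) = 0 by
    have hsum : g = ∑ a ∈ g.support, g.coeff a • (MvPolynomial.monomial a (1 : F3 E)) := by
      conv_lhs => rw [← g.support_sum_monomial_coeff]
      refine Finset.sum_congr rfl fun a _ => ?_
      rw [MvPolynomial.smul_monomial, smul_eq_mul, mul_one]
    rw [hsum, map_sum, map_sum]
    refine Finset.sum_eq_zero fun a _ => ?_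
    rw [map_smul, hLIN, h, mul_zero]
  intro a
  set m : MvPolynomial (Fin (n + 1)) (F3 E) := MvPolynomial.monomial a (1 : F3 E) with hm
  set g0 : MvPolynomial (Fin (n + 1)) E := MvPolynomial.monomial a (1 : E) with hg0
  have hmap : m = MvPolynomial.map (Corner.cF E) g0 := by
    rw [hm, hg0, MvPolynomial.map_monomial, map_one (Corner.cF E)]
  -- expansion of the operator
  have hD : Dop K.P i m = MvPolynomial.map (Corner.cF E) (ez i g0 + g0) -
      MvPolynomial.C (Corner.sigF E) *
        MvPolynomial.map (Corner.cF E) (ez i (SigP n E ^ K.D) * g0) +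
      (∑ k ∈ Finset.range ((1 + K.w).natDegree + 1), MvPolynomial.C (Corner.tauF E ^ k) *
        MvPolynomial.map (Corner.cF E) (ez i (K.G k) * g0)) -
      MvPolynomial.C (Corner.lamF E) *
        MvPolynomial.map (Corner.cF E) (ez i (Corner.fer n K.D E) * g0) := by
    rw [Dop_apply, P_eq, hmap, ez_map]
    have h1 : ez i (MvPolynomial.C (Corner.sigF E) *
          MvPolynomial.map (Corner.cF E) (SigP n E ^ K.D) -
        (∑ k ∈ Finset.range ((1 + K.w).natDegree + 1),
          MvPolynomial.C (Corner.tauF E ^ k) * MvPolynomial.map (Corner.cF E) (K.G k)) +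
        MvPolynomial.C (Corner.lamF E) *
          MvPolynomial.map (Corner.cF E) (Corner.fer n K.D E)) =
        MvPolynomial.C (Corner.sigF E) *
          MvPolynomial.map (Corner.cF E) (ez i (SigP n E ^ K.D)) -
        (∑ k ∈ Finset.range ((1 + K.w).natDegree + 1),
          MvPolynomial.C (Corner.tauF E ^ k) * MvPolynomial.map (Corner.cF E) (ez i (K.G k))) +
        MvPolynomial.C (Corner.lamF E) *
          MvPolynomial.map (Corner.cF E) (ez i (Corner.fer n K.D E)) := by
      rw [map_add, map_sub, ez_C_mul, ez_C_mul, ez_map, ez_map, map_sum]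
      congr 2
      refine Finset.sum_congr rfl fun k _ => ?_
      rw [ez_C_mul, ez_map]
    rw [h1, add_mul, sub_mul, Finset.sum_mul, map_add]
    simp only [map_mul, mul_assoc]
    ring
  by_cases hdiv : K.D ∣ a.degree + (n + 1)
  · obtain ⟨L, hL⟩ := hdiv
    have hL1 : 1 ≤ L := by
      rcases Nat.eq_zero_or_pos L with h | h
      · subst h; omega
      · exact h
    have hnL : n + 1 ≤ K.D * L := by omega
    have hg : g0.IsHomogeneous (K.D * L - (n + 1)) := by
      refine MvPolynomial.isHomogeneous_monomial _ ?_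
      omega
    have hLL : K.D * (L + 1) - (n + 1) = K.D + (K.D * L - (n + 1)) := by
      rw [Nat.mul_succ]; omega
    have hnL' : n + 1 ≤ K.D * (L + 1) := by rw [Nat.mul_succ]; omega
    have hup : ∀ f : MvPolynomial (Fin (n + 1)) E, f.IsHomogeneous K.D →
        (ez i f * g0).IsHomogeneous (K.D * (L + 1) - (n + 1)) := by
      intro f hf
      rw [hLL]
      exact (ez_hom i f _ hf).mul hg
    refine ext3 fun l s t => ?_
    have c1 := coe_val K hCOE j L (ez i g0 + g0) 0 0 0 hL1 ((ez_hom i g0 _ hg).add hg) hnL l s t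
    have c2 := coe_val K hCOE j (L + 1) (ez i (SigP n E ^ K.D) * g0) 0 1 0 (by omega)
      (hup _ (S_hom K)) hnL' l s t
    have c3 : ∀ k, _ := fun k => coe_val K hCOE j (L + 1) (ez i (K.G k) * g0) 0 0 k (by omega)
      (hup _ (G_hom K k)) hnL' l s t
    have c4 := coe_val K hCOE j (L + 1) (ez i (Corner.fer n K.D E) * g0) 1 0 0 (by omega)
      (hup _ (fer_hom K)) hnL' l s t
    simp only [pow_zero, pow_one, one_mul, mul_one, map_one, Nat.cast_zero, Nat.cast_one,
      sub_zero] at c1 c2 c3 c4
    rw [hD, map_sub, map_add, map_sub, map_sum, map_sub, map_add, map_sub, map_sum, c1, c2, c4,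
      Finset.sum_congr rfl fun k _ => c3 k]
    by_cases hlt : 0 ≤ l ∧ 0 ≤ t
    · obtain ⟨hl, ht⟩ := hlt
      obtain ⟨l', rfl⟩ := Int.eq_ofNat_of_zero_le hl
      obtain ⟨t', rfl⟩ := Int.eq_ofNat_of_zero_le ht
      have hs1 : -(s - 1) - 1 = (-s - 1) + 1 := by ring
      rw [if_pos ⟨hl, ht⟩, if_pos ⟨hl, ht⟩, hs1, Int.toNat_natCast, Int.toNat_natCast,
        val_rel K hRC hAREL hRREL j L l' t' g0 i (-s - 1) hL1 hg hnL]
      have h4 : (if (1 : ℤ) ≤ (l' : ℤ) ∧ (0 : ℤ) ≤ (t' : ℤ) then
          val K j (L + 1) (ez i (Corner.fer n K.D E) * g0) ((l' : ℤ) - 1).toNat t'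
            (-s - 1) else 0) =
          (if l' = 0 then 0 else
            val K j (L + 1) (ez i (Corner.fer n K.D E) * g0) (l' - 1) t' (-s - 1)) := by
        by_cases h0 : l' = 0
        · subst h0; simp
        · rw [if_neg h0, if_pos ⟨by omega, ht⟩]
          congr 1
          omega
      have h3 : (∑ k ∈ Finset.range ((1 + K.w).natDegree + 1),
          if (0 : ℤ) ≤ (l' : ℤ) ∧ (k : ℤ) ≤ (t' : ℤ) then
            val K j (L + 1) (ez i (K.G k) * g0) l' ((t' : ℤ) - k).toNat (-s - 1) else 0) =
          ∑ k ∈ Finset.range (t' + 1),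
            val K j (L + 1) (ez i (K.G k) * g0) l' (t' - k) (-s - 1) := by
        have hz : ∀ k, (1 + K.w).natDegree < k →
            val K j (L + 1) (ez i (K.G k) * g0) l' (t' - k) (-s - 1) = 0 := by
          intro k hk
          rw [G_zero K k hk, map_zero, zero_mul, val_zero K hRC]
        have hL' : ∀ k ∈ Finset.range ((1 + K.w).natDegree + 1),
            (if (0 : ℤ) ≤ (l' : ℤ) ∧ (k : ℤ) ≤ (t' : ℤ) then
              val K j (L + 1) (ez i (K.G k) * g0) l' ((t' : ℤ) - k).toNat (-s - 1) else 0) =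
            if k ∈ Finset.range (t' + 1) then
              val K j (L + 1) (ez i (K.G k) * g0) l' (t' - k) (-s - 1) else 0 := by
          intro k _
          by_cases hk : k ≤ t'
          · rw [if_pos ⟨hl, by omega⟩, if_pos (Finset.mem_range.mpr (by omega))]
            congr 1
            omega
          · rw [if_neg (by omega), if_neg (fun h => hk (by
              have := Finset.mem_range.mp h; omega))]
        rw [Finset.sum_congr rfl hL', ← Finset.sum_filter]
        refine Finset.sum_subset ?_ ?_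
        · intro k hk
          exact (Finset.mem_filter.mp hk).2
        · intro k hk hk'
          refine hz k ?_
          by_contra hc
          exact hk' (Finset.mem_filter.mpr ⟨Finset.mem_range.mpr (by omega), hk⟩)
      rw [h4, h3]
      ring
    · rw [if_neg hlt, if_neg hlt]
      have h4 : ¬ ((1 : ℤ) ≤ l ∧ (0 : ℤ) ≤ t) := fun h => hlt ⟨by omega, h.2⟩
      rw [if_neg h4]
      have h3 : ∀ k ∈ Finset.range ((1 + K.w).natDegree + 1),
          (if (0 : ℤ) ≤ l ∧ (k : ℤ) ≤ t then
            val K j (L + 1) (ez i (K.G k) * g0) l.toNat (t - k).toNat (-s - 1) else 0) = 0 := by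
        intro k _
        rw [if_neg]
        exact fun h => hlt ⟨h.1, by omega⟩
      rw [Finset.sum_eq_zero h3]
      ring
  · -- no level
    refine lv_zero K hJJLV j _ fun b hb => ?_
    have hPh : K.P.IsHomogeneous K.D := by
      rw [P_eq]
      have hC : ∀ (c : F3 E) (f : MvPolynomial (Fin (n + 1)) E), f.IsHomogeneous K.D →
          (MvPolynomial.C c * MvPolynomial.map (Corner.cF E) f).IsHomogeneous K.D := by
        intro c f hf
        have h := (MvPolynomial.isHomogeneous_C (Fin (n + 1)) c).mul (hf.map (Corner.cF E))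
        rwa [zero_add] at h
      refine ((hC _ _ (S_hom K)).sub ?_).add (hC _ _ (fer_hom K))
      exact MvPolynomial.IsHomogeneous.sum _ _ _ fun k _ => hC _ _ (G_hom K k)
    have hmh : m.IsHomogeneous a.degree := MvPolynomial.isHomogeneous_monomial _ rfl
    rw [Dop_apply, MvPolynomial.coeff_sub, MvPolynomial.coeff_add] at hb
    have hb' : MvPolynomial.coeff b (ez i m) ≠ 0 ∨ MvPolynomial.coeff b m ≠ 0 ∨
        MvPolynomial.coeff b (ez i K.P * m) ≠ 0 := by
      by_contra hc
      push Not at hc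
      exact hb (by rw [hc.1, hc.2.1, hc.2.2]; ring)
    rcases hb' with h | h | h
    · rw [hom_deg (ez_hom i m _ hmh) h]; exact hdiv
    · rw [hom_deg hmh h]; exact hdiv
    · rw [hom_deg ((ez_hom i K.P _ hPh).mul hmh) h]
      intro hd
      apply hdiv
      have : K.D + a.degree + (n + 1) = K.D + (a.degree + (n + 1)) := by ring
      rw [this] at hd
      exact (Nat.dvd_add_right (dvd_refl _)).mp hd

end Pool.CUBE
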